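import Pool.Agent.Helper2.NNQ.DimStm

/-!
# STEP of helper2's project NNQ (MP_a70bdc_nt)
-/

set_option autoImplicit false

open MeasureTheory Filter Topology Finset
open scoped Real

namespace Pool.Agent.Helper88.NNQ

open Pool.Agent.Helper2.NNQ

/-- separated points in an interval -/
theorem sep_card {G : Finset ℝ} {p L r : ℝ} (hr : 0 < r) (hL : 0 ≤ L)
    (hG : ∀ y ∈ G, p ≤ y ∧ y ≤ p + L) (hs : ∀ y ∈ G, ∀ z ∈ G, y ≠ z → 4 * r ≤ |y - z|) :
    (G.card : ℝ) ≤ L / (4 * r) + 1 := by
  have h4 : 0 < 4 * r := by positivity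
  have hcard : G.card ≤ (Finset.range (⌊L / (4 * r)⌋₊ + 1)).card := by
    apply Finset.card_le_card_of_injOn (fun y => ⌊(y - p) / (4 * r)⌋₊)
    · intro y hy
      have h1 := hG y (Finset.mem_coe.1 hy)
      rw [Finset.mem_coe, Finset.mem_range]
      apply Nat.lt_succ_of_le
      apply Nat.floor_le_floor
      apply div_le_div_of_nonneg_right _ h4.le
      linarith [h1.2]
    · intro y hy z hz hyz
      by_contra hne
      have key : ∀ y ∈ G, ∀ z ∈ G, z < y → ⌊(y - p) / (4 * r)⌋₊ ≠ ⌊(z - p) / (4 * r)⌋₊ := by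
        intro y hy z hz hlt he
        have h2 := hs y hy z hz hlt.ne'
        rw [abs_of_pos (by linarith)] at h2
        have h3 : (z - p) / (4 * r) + 1 ≤ (y - p) / (4 * r) := by
          rw [div_add_one h4.ne', div_le_div_iff_of_pos_right h4]
          linarith
        have h4' : 0 ≤ (z - p) / (4 * r) := div_nonneg (by linarith [(hG z hz).1]) h4.le
        have h5 : ⌊(z - p) / (4 * r)⌋₊ + 1 ≤ ⌊(y - p) / (4 * r)⌋₊ := by
          rw [← Nat.floor_add_one h4']
          exact Nat.floor_le_floor h3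
        omega
      rcases lt_or_gt_of_ne hne with h | h
      · exact key z (Finset.mem_coe.1 hz) y (Finset.mem_coe.1 hy) h hyz.symm
      · exact key y (Finset.mem_coe.1 hy) z (Finset.mem_coe.1 hz) h hyz
  rw [Finset.card_range] at hcard
  have h6 : (G.card : ℝ) ≤ (⌊L / (4 * r)⌋₊ : ℝ) + 1 := by exact_mod_cast hcard
  have h7 : (⌊L / (4 * r)⌋₊ : ℝ) ≤ L / (4 * r) := Nat.floor_le (by positivity)
  linarith

theorem t_STEP (h : S_FF) : S_STEP := by
  obtain ⟨c, C, hc, hC, hFF⟩ := h
  intro s hs0 hs1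
  have hκ0 : 0 < min (1 / 2) (c / (12 * C)) := by positivity
  have hκ1 : min (1 / 2) (c / (12 * C)) ≤ 1 / 2 := min_le_left _ _
  have hκ2 : min (1 / 2) (c / (12 * C)) ≤ c / (12 * C) := min_le_right _ _
  refine ⟨min (1 / 2) (c / (12 * C)), hκ0, lt_of_le_of_lt hκ1 (by norm_num), ?_⟩
  generalize min (1 / 2) (c / (12 * C)) = κ at hκ0 hκ1 hκ2 ⊢
  intro k g A B hg x ρ hρ hρ4 hA hB δ hδ
  obtain ⟨n₀, hn₀⟩ := hFF k g A B hg x ρ hρ hρ4 hA hB
  obtain ⟨a, ha⟩ : ∃ a : ℝ, a = (1 - s) / 4 := ⟨_, rfl⟩
  obtain ⟨K, hK⟩ : ∃ K : ℝ, K = c * ρ ^ (1 - s) := ⟨_, rfl⟩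
  have ha0 : 0 < a := by rw [ha]; linarith
  have hρs : 0 < ρ ^ (1 - s) := Real.rpow_pos_of_pos hρ _
  have hK0 : 0 < K := by rw [hK]; positivity
  obtain ⟨n₁, hn₁⟩ := exists_nat_ge (max (16 / (K * a ^ 2)) (2 / δ))
  refine ⟨max n₀ (max n₁ 3), fun n hn => ?_⟩
  have hnn₀ : n₀ ≤ n := (le_max_left _ _).trans hn
  have hnn₁ : n₁ ≤ n := ((le_max_left _ _).trans (le_max_right _ _)).trans hn
  have hn3 : 3 ≤ n := ((le_max_right _ _).trans (le_max_right _ _)).trans hn
  obtain ⟨r, F, hr0, hr, hball, hsep, hcard, hcount⟩ := hn₀ n hnn₀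
  obtain ⟨m, hm⟩ : ∃ m : ℝ, m = (n : ℝ) * Real.log n := ⟨_, rfl⟩
  rw [← hm] at hr hcard hcount
  have hn3r : (3 : ℝ) ≤ n := by exact_mod_cast hn3
  have hlog : 1 ≤ Real.log n := by
    rw [Real.le_log_iff_exp_le (by linarith)]
    have := Real.exp_one_lt_d9
    linarith
  have hmn : (n : ℝ) ≤ m := by
    rw [hm]
    nlinarith
  have hm1 : max (16 / (K * a ^ 2)) (2 / δ) ≤ m :=
    hn₁.trans (le_trans (by exact_mod_cast hnn₁) hmn)
  have hmA : 16 / (K * a ^ 2) ≤ m := (le_max_left _ _).trans hm1
  have hmB : 2 / δ ≤ m := (le_max_right _ _).trans hm1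
  have hm0 : 0 < m := by linarith
  -- the main inequality
  have key : 8 * m ≤ K * Real.exp (a * m) := by
    have h1 := Real.quadratic_le_exp_of_nonneg (mul_nonneg ha0.le hm0.le)
    have h2 : (a * m) ^ 2 / 2 ≤ Real.exp (a * m) := by
      have : 0 ≤ a * m := by positivity
      linarith
    have h3 : 16 ≤ m * (K * a ^ 2) := by rwa [div_le_iff₀ (by positivity)] at hmA
    have h4 : K * ((a * m) ^ 2 / 2) ≤ K * Real.exp (a * m) := mul_le_mul_of_nonneg_left h2 hK0.le
    have h5 : 8 * m ≤ K * ((a * m) ^ 2 / 2) := by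
      have : K * ((a * m) ^ 2 / 2) = m * (m * (K * a ^ 2)) / 2 := by ring
      rw [this]
      nlinarith
    linarith
  have hrδ : r ≤ δ := by
    refine hr.trans ?_
    rw [Real.exp_neg]
    have h1 : 1 / δ ≤ Real.exp (1 / 2 * m) := by
      have h2 := Real.add_one_le_exp (1 / 2 * m)
      have h3 : 1 / δ = 1 / 2 * (2 / δ) := by ring
      rw [h3]
      nlinarith
    rw [inv_le_comm₀ (Real.exp_pos _) hδ, ← one_div]
    exact h1
  have hFc : c * ρ / (r * m) ≤ F.card := hcard
  refine ⟨r, F, hr0, hrδ, hball, ?_, ?_⟩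
  · -- `4 (ρ / r)^s ≤ F.card`
    refine le_trans ?_ hFc
    have hR0 : 0 < ρ / r := by positivity
    have h1 : ρ * Real.exp (1 / 2 * m) ≤ ρ / r := by
      rw [le_div_iff₀ hr0, mul_assoc]
      have h2 : Real.exp (1 / 2 * m) * r ≤ 1 := by
        calc Real.exp (1 / 2 * m) * r ≤ Real.exp (1 / 2 * m) * Real.exp (-(1 / 2 * m)) :=
              mul_le_mul_of_nonneg_left hr (Real.exp_pos _).le
          _ = 1 := by rw [← Real.exp_add, add_neg_cancel, Real.exp_zero]
      nlinarith
    have h3 : ρ ^ (1 - s) * Real.exp (a * m) ≤ (ρ / r) ^ (1 - s) := by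
      calc ρ ^ (1 - s) * Real.exp (a * m) ≤ ρ ^ (1 - s) * Real.exp (1 / 2 * m * (1 - s)) := by
            apply mul_le_mul_of_nonneg_left _ hρs.le
            apply Real.exp_le_exp.2
            rw [ha]
            nlinarith
        _ = (ρ * Real.exp (1 / 2 * m)) ^ (1 - s) := by
            rw [Real.mul_rpow hρ.le (Real.exp_pos _).le, ← Real.exp_mul]
        _ ≤ (ρ / r) ^ (1 - s) :=
            Real.rpow_le_rpow (by positivity) h1 (by linarith)
    have h4 : 4 * m ≤ c * (ρ / r) ^ (1 - s) := by
      have h5 : c * (ρ ^ (1 - s) * Real.exp (a * m)) ≤ c * (ρ / r) ^ (1 - s) :=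
        mul_le_mul_of_nonneg_left h3 hc.le
      rw [← mul_assoc, ← hK] at h5
      linarith
    have h6 : c * ρ / (r * m) = (c * (ρ / r) ^ (1 - s)) * (ρ / r) ^ s / m := by
      have e : (ρ / r) ^ (1 - s) * (ρ / r) ^ s = ρ / r := by
        rw [← Real.rpow_add hR0, sub_add_cancel, Real.rpow_one]
      rw [mul_assoc, e]
      field_simp
    rw [h6, le_div_iff₀ hm0]
    have h7 : 0 < (ρ / r) ^ s := Real.rpow_pos_of_pos hR0 _
    calc 4 * (ρ / r) ^ s * m = (4 * m) * (ρ / r) ^ s := by ring
      _ ≤ (c * (ρ / r) ^ (1 - s)) * (ρ / r) ^ s := mul_le_mul_of_nonneg_right h4 h7.le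
  · intro U u hu hU G hGF hG
    have hdist : ∀ y ∈ G, ∀ z ∈ G, |y - z| ≤ u + 2 * r := by
      intro y hy z hz
      obtain ⟨p, hpU, hp⟩ := hG y hy
      obtain ⟨q, hqU, hq⟩ := hG z hz
      have h1 := hU p hpU q hqU
      rw [Metric.mem_closedBall, Real.dist_eq] at hp hq
      rw [Real.dist_eq] at h1
      have hp' := abs_le.1 hp
      have hq' := abs_le.1 hq
      have h1' := abs_le.1 h1
      exact abs_le.2 ⟨by linarith [hp'.1, hp'.2, hq'.1, hq'.2, h1'.1, h1'.2],
        by linarith [hp'.1, hp'.2, hq'.1, hq'.2, h1'.1, h1'.2]⟩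
    refine ⟨fun hur => ?_, fun hru huρ => ?_⟩
    · by_contra hcon
      push Not at hcon
      obtain ⟨y, hy, z, hz, hne⟩ := Finset.one_lt_card.1 hcon
      have h1 := hsep y (hGF hy) z (hGF hz) hne
      have h2 := hdist y hy z hz
      linarith
    · have hv0 : 0 < u / ρ := by positivity
      have hv1 : u / ρ ≤ 1 := (div_le_one hρ).2 huρ
      have hvs : 0 < (u / ρ) ^ s := Real.rpow_pos_of_pos hv0 _
      rcases G.eq_empty_or_nonempty with hGe | hGne
      · rw [hGe, Finset.card_empty, Nat.cast_zero]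
        positivity
      · obtain ⟨p, hpG, hpmin⟩ := G.exists_min_image id hGne
        have hint : ∀ y ∈ G, p ≤ y ∧ y ≤ p + 3 * u := by
          intro y hy
          have h1 : p ≤ y := hpmin y hy
          have h2 := hdist y hy p hpG
          rw [abs_of_nonneg (by linarith)] at h2
          exact ⟨h1, by linarith⟩
        by_cases hbig : Real.exp (-(1 / 4 * m)) ≤ 3 * u
        · -- large `u`
          have h1 := hcount p (p + 3 * u) (by linarith)
          have h2 : G.card ≤ (F.filter (fun y => p ≤ y ∧ y ≤ p + 3 * u)).card :=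
            Finset.card_le_card fun y hy => Finset.mem_filter.2 ⟨hGF hy, hint y hy⟩
          have h3 : (G.card : ℝ) ≤ C * (3 * u) / (r * m) := by
            refine le_trans (by exact_mod_cast h2) (h1.trans (le_of_eq ?_))
            ring
          have h4 : C * (3 * u) / (r * m) = (3 * C / c) * (u / ρ) * (c * ρ / (r * m)) := by
            field_simp
          have h5 : (3 * C / c) ≤ 1 / (4 * κ) := by
            rw [div_le_div_iff₀ hc (by positivity)]
            rw [le_div_iff₀ (by positivity)] at hκ2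
            linarith
          have h6 : u / ρ ≤ (u / ρ) ^ s := by
            have := Real.rpow_le_rpow_of_exponent_ge hv0 hv1 hs1.le
            rwa [Real.rpow_one] at this
          calc (G.card : ℝ) ≤ (3 * C / c) * (u / ρ) * (c * ρ / (r * m)) := h3.trans (le_of_eq h4)
            _ ≤ (3 * C / c) * (u / ρ) * F.card := mul_le_mul_of_nonneg_left hFc (by positivity)
            _ ≤ (1 / (4 * κ)) * (u / ρ) ^ s * F.card := by
                apply mul_le_mul_of_nonneg_right _ (Nat.cast_nonneg _)
                exact mul_le_mul h5 h6 hv0.le (by positivity)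
            _ = F.card / (4 * κ) * (u / ρ) ^ s := by ring
        · -- small `u`
          push Not at hbig
          have h1 := sep_card (G := G) (p := p) (L := 3 * u) (r := r) hr0 (by linarith) hint
            (fun y hy z hz hne => hsep y (hGF hy) z (hGF hz) hne)
          have h2 : (G.card : ℝ) ≤ 2 * u / r := by
            refine h1.trans ?_
            have h3 : 1 ≤ u / r := (one_le_div hr0).2 hru
            have h4 : 3 * u / (4 * r) = 3 / 4 * (u / r) := by ring
            have h5 : 2 * u / r = 2 * (u / r) := by ring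
            rw [h4, h5]
            linarith
          have h6 : u ≤ Real.exp (-(1 / 4 * m)) := by linarith
          have h7 : (u / ρ) ^ (1 - s) ≤ Real.exp (-(a * m)) / ρ ^ (1 - s) := by
            rw [Real.div_rpow hu.le hρ.le]
            apply div_le_div_of_nonneg_right _ hρs.le
            calc u ^ (1 - s) ≤ (Real.exp (-(1 / 4 * m))) ^ (1 - s) :=
                  Real.rpow_le_rpow hu.le h6 (by linarith)
              _ = Real.exp (-(a * m)) := by
                  rw [← Real.exp_mul, ha]
                  congr 1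
                  ring
          have h8 : 8 * m * (u / ρ) ^ (1 - s) ≤ c := by
            calc 8 * m * (u / ρ) ^ (1 - s) ≤ 8 * m * (Real.exp (-(a * m)) / ρ ^ (1 - s)) :=
                  mul_le_mul_of_nonneg_left h7 (by positivity)
              _ ≤ (K * Real.exp (a * m)) * (Real.exp (-(a * m)) / ρ ^ (1 - s)) :=
                  mul_le_mul_of_nonneg_right key (by positivity)
              _ = K / ρ ^ (1 - s) * (Real.exp (a * m) * Real.exp (-(a * m))) := by ring
              _ = c := by
                  rw [← Real.exp_add, add_neg_cancel, Real.exp_zero, mul_one, hK]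
                  field_simp
          have e : u / ρ = (u / ρ) ^ (1 - s) * (u / ρ) ^ s := by
            rw [← Real.rpow_add hv0, sub_add_cancel, Real.rpow_one]
          have h9 : 8 * m * (u / ρ) ≤ c * (u / ρ) ^ s := by
            calc 8 * m * (u / ρ) = 8 * m * ((u / ρ) ^ (1 - s) * (u / ρ) ^ s) := by
                  rw [← e]
              _ = 8 * m * (u / ρ) ^ (1 - s) * (u / ρ) ^ s := by ring
              _ ≤ c * (u / ρ) ^ s := mul_le_mul_of_nonneg_right h8 hvs.le
          have h10 : 2 * u / r ≤ c * ρ / (r * m) * (1 / 4) * (u / ρ) ^ s := by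
            have e1 : 2 * u / r = (8 * m * (u / ρ)) * (ρ / (4 * (r * m))) := by
              field_simp
              ring
            have e2 : c * ρ / (r * m) * (1 / 4) * (u / ρ) ^ s =
                (c * (u / ρ) ^ s) * (ρ / (4 * (r * m))) := by
              ring
            rw [e1, e2]
            exact mul_le_mul_of_nonneg_right h9 (by positivity)
          have h11 : (1 : ℝ) / 4 ≤ 1 / (4 * κ) := by
            apply one_div_le_one_div_of_le (by positivity)
            linarith
          calc (G.card : ℝ) ≤ 2 * u / r := h2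
            _ ≤ c * ρ / (r * m) * (1 / 4) * (u / ρ) ^ s := h10
            _ ≤ F.card * (1 / (4 * κ)) * (u / ρ) ^ s := by
                apply mul_le_mul_of_nonneg_right _ hvs.le
                exact mul_le_mul hFc h11 (by norm_num) (Nat.cast_nonneg _)
            _ = F.card / (4 * κ) * (u / ρ) ^ s := by ring

end Pool.Agent.Helper88.NNQ
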